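import Pool.Agent.Run7.h894.LK.Stm
import Pool.Agent.Helper717.LT.P_specP

/-!
# Project LK: pieces MEIG and NPW (measurable eigenvalues and powers)
-/

set_option autoImplicit false

open MeasureTheory Set Filter Topology
open scoped Matrix

namespace Pool.Agent.Run7.h437.LK

open LTd (Mat)
open Pool.Agent.Run7.H894.LK

/-- Polynomials converging pointwise on the half line. -/
lemma exists_poly_seq {f : ℝ → ℝ} (F : ℕ → ℝ → ℝ) (hF : ∀ q, Continuous (F q))
    (hlim : ∀ x, 0 ≤ x → Tendsto (fun q => F q x) atTop (𝓝 (f x))) :
    ∃ p : ℕ → Polynomial ℝ, ∀ x, 0 ≤ x →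
      Tendsto (fun q => (p q).eval x) atTop (𝓝 (f x)) := by
  have h : ∀ q : ℕ, ∃ p : Polynomial ℝ, ∀ x ∈ Set.Icc (0 : ℝ) q,
      |p.eval x - F q x| < 1 / ((q : ℝ) + 1) := fun q =>
    exists_polynomial_near_of_continuousOn 0 q (F q) (hF q).continuousOn _ (by positivity)
  choose p hp using h
  refine ⟨p, fun x hx => ?_⟩
  have h1 : Tendsto (fun q : ℕ => (p q).eval x - F q x) atTop (𝓝 0) := by
    refine squeeze_zero_norm' ?_ tendsto_one_div_add_atTop_nhds_zero_nat
    filter_upwards [eventually_ge_atTop ⌈x⌉₊] with q hq
    rw [Real.norm_eq_abs]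
    refine (hp q x ⟨hx, ?_⟩).le
    exact (Nat.le_ceil x).trans (by exact_mod_cast hq)
  have h2 := h1.add (hlim x hx)
  simp only [sub_add_cancel, zero_add] at h2
  exact h2

lemma spec_pow {n : ℕ} {B V : Mat n} {e : Fin n → ℝ} (h : Spec B V e) (m : ℕ) :
    B ^ m = V * Matrix.diagonal (fun i => e i ^ m) * Vᵀ := by
  obtain ⟨h1, h2, h3⟩ := h
  induction m with
  | zero =>
    simp only [pow_zero]
    have : Matrix.diagonal (fun _ : Fin n => (1 : ℝ)) = 1 := Matrix.diagonal_one
    rw [this, Matrix.mul_one, h1]
  | succ m ih =>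
    rw [pow_succ, ih]
    conv_lhs => rw [h3]
    calc V * Matrix.diagonal (fun i => e i ^ m) * Vᵀ * (V * Matrix.diagonal e * Vᵀ)
        = V * Matrix.diagonal (fun i => e i ^ m) * (Vᵀ * V) * Matrix.diagonal e * Vᵀ := by
          simp only [Matrix.mul_assoc]
      _ = V * (Matrix.diagonal (fun i => e i ^ m) * Matrix.diagonal e) * Vᵀ := by
          rw [h2, Matrix.mul_one]
          simp only [Matrix.mul_assoc]
      _ = _ := by
          rw [Matrix.diagonal_mul_diagonal]
          simp only [pow_succ]

lemma aeval_spec {n : ℕ} {B V : Mat n} {e : Fin n → ℝ} (h : Spec B V e) (p : Polynomial ℝ) :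
    Polynomial.aeval B p = V * Matrix.diagonal (fun i => p.eval (e i)) * Vᵀ := by
  induction p using Polynomial.induction_on' with
  | add p q hp hq =>
    rw [map_add, hp, hq, ← Matrix.add_mul, ← Matrix.mul_add, Matrix.diagonal_add]
    simp only [Polynomial.eval_add]
  | monomial m a =>
    rw [Polynomial.aeval_monomial, spec_pow h, ← Algebra.smul_def]
    have : Matrix.diagonal (fun i => (Polynomial.monomial m a).eval (e i))
        = a • Matrix.diagonal (fun i => e i ^ m) := by
      rw [← Matrix.diagonal_smul]
      congr 1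
      funext i
      simp [Polynomial.eval_monomial]
    rw [this, Matrix.mul_smul, Matrix.smul_mul]

lemma spec_entry {n : ℕ} (V : Mat n) (d : Fin n → ℝ) (i j : Fin n) :
    (V * Matrix.diagonal d * Vᵀ) i j = ∑ k, V i k * d k * V j k := by
  rw [Matrix.mul_apply]
  refine Finset.sum_congr rfl fun k _ => ?_
  rw [Matrix.mul_diagonal, Matrix.transpose_apply]

lemma continuous_aeval_entry {n : ℕ} {B : ℝ → Mat n} (hB : ∀ i j, Continuous fun t => B t i j)
    (p : Polynomial ℝ) (i j : Fin n) : Continuous fun t => (Polynomial.aeval (B t) p) i j := by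
  have h1 : Continuous B := continuous_matrix hB
  have h2 : Continuous fun t => Polynomial.aeval (B t) p := (p.continuous_aeval).comp h1
  exact h2.matrix_elem i j

theorem t_NPW : S_NPW := by
  intro n B V b s hs hB hb hspec i j
  obtain ⟨p, hp⟩ := exists_poly_seq (f := fun x => x ^ s) (fun _ x => x ^ s)
    (fun _ => Real.continuous_rpow_const hs.le) (fun x _ => tendsto_const_nhds)
  refine measurable_of_tendsto_metrizable
    (f := fun q t => (Polynomial.aeval (B t) (p q)) i j)
    (fun q => (continuous_aeval_entry hB (p q) i j).measurable) ?_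
  rw [tendsto_pi_nhds]
  intro t
  simp only [aeval_spec (hspec t), spec_entry]
  refine tendsto_finsetSum _ fun k _ => ?_
  exact ((hp (b k t) (hb k t)).const_mul _).mul_const _

/-- The trace of a function of the matrix. -/
lemma trace_aeval {n : ℕ} {B V : Mat n} {e : Fin n → ℝ} (h : Spec B V e) (p : Polynomial ℝ) :
    ∑ i, (Polynomial.aeval B p) i i = ∑ i, p.eval (e i) := by
  have h1 : ∑ i, (Polynomial.aeval B p) i i = (Polynomial.aeval B p).trace := rfl
  rw [h1, aeval_spec h, Matrix.mul_assoc, Matrix.trace_mul_comm, Matrix.mul_assoc, h.2.1,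
    Matrix.mul_one, Matrix.trace_diagonal]

lemma mono_count {n : ℕ} {a : Fin n → ℝ} (ha : Monotone a) (c : ℝ) (j : Fin n) :
    c < a j ↔ n - (j : ℕ) ≤ (Finset.univ.filter fun k => c < a k).card := by
  constructor
  · intro h
    rw [← Fin.card_Ici]
    refine Finset.card_le_card fun k hk => ?_
    rw [Finset.mem_filter]
    exact ⟨Finset.mem_univ _, lt_of_lt_of_le h (ha (Finset.mem_Ici.mp hk))⟩
  · intro h
    by_contra hcon
    push Not at hcon
    have h1 : (Finset.univ.filter fun k => c < a k).card ≤ (Finset.Ioi j).card := by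
      refine Finset.card_le_card fun k hk => ?_
      rw [Finset.mem_filter] at hk
      rw [Finset.mem_Ioi]
      by_contra hkj
      push Not at hkj
      have := ha hkj
      linarith [hk.2]
    rw [Fin.card_Ioi] at h1
    have h2 := j.isLt
    omega

theorem t_MEIG : S_MEIG := by
  intro n B hB hP
  choose V r hV hV' hr hB' using fun t => LTd.specP (hP t)
  have hspec : ∀ t, Spec (B t) (V t) (r t) := fun t => ⟨hV t, hV' t, hB' t⟩
  refine ⟨fun j t => r t (Tuple.sort (r t) j), ?_, fun j t => hr _ _, fun t => ?_⟩
  · intro j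
    refine measurable_of_Ioi fun c => ?_
    set N : ℝ → ℝ := fun t => ∑ i, (if c < r t i then (1 : ℝ) else 0) with hN
    have hNm : Measurable N := by
      obtain ⟨p, hp⟩ := exists_poly_seq (f := fun x => if c < x then (1 : ℝ) else 0)
        (fun q x => min 1 (max 0 ((q : ℝ) * (x - c))))
        (fun q => continuous_const.min (continuous_const.max
          (continuous_const.mul (continuous_id.sub continuous_const)))) (by
          intro x _
          by_cases hx : c < x
          · simp only [if_pos hx]
            refine tendsto_const_nhds.congr' ?_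
            have hpos : 0 < x - c := by linarith
            filter_upwards [eventually_ge_atTop ⌈1 / (x - c)⌉₊] with q hq
            have h1 : 1 / (x - c) ≤ q := (Nat.le_ceil _).trans (by exact_mod_cast hq)
            rw [div_le_iff₀ hpos] at h1
            rw [max_eq_right (by linarith), min_eq_left h1]
          · simp only [if_neg hx]
            refine tendsto_const_nhds.congr fun q => ?_
            have h1 : (q : ℝ) * (x - c) ≤ 0 := by
              have : (0 : ℝ) ≤ q := Nat.cast_nonneg q
              have : x - c ≤ 0 := by linarith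
              nlinarith
            rw [max_eq_left h1, min_eq_right zero_le_one])
      refine measurable_of_tendsto_metrizable
        (f := fun q t => ∑ i, (Polynomial.aeval (B t) (p q)) i i)
        (fun q => Finset.measurable_fun_sum _ fun i _ =>
          (continuous_aeval_entry hB (p q) i i).measurable) ?_
      rw [tendsto_pi_nhds]
      intro t
      simp only [trace_aeval (hspec t)]
      exact tendsto_finsetSum _ fun k _ => hp (r t k) (hr t k)
    have hset : (fun t => r t (Tuple.sort (r t) j)) ⁻¹' Ioi c
        = N ⁻¹' Ici (((n - (j : ℕ) : ℕ)) : ℝ) := by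
      ext t
      simp only [mem_preimage, mem_Ioi, mem_Ici]
      have h1 := mono_count (Tuple.monotone_sort (r t)) c j
      simp only [Function.comp_apply] at h1
      rw [h1]
      have h2 : N t = ((Finset.univ.filter fun k => c < r t (Tuple.sort (r t) k)).card : ℝ) := by
        simp only [hN]
        rw [← Equiv.sum_comp (Tuple.sort (r t)), Finset.sum_boole]
      rw [h2]
      exact Nat.cast_le.symm
    rw [hset]
    exact hNm measurableSet_Ici
  · set σ : Equiv.Perm (Fin n) := Tuple.sort (r t) with hσ
    refine ⟨(V t).submatrix id σ, ?_, ?_, ?_⟩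
    · rw [Matrix.transpose_submatrix, Matrix.submatrix_mul_equiv, hV, Matrix.submatrix_id_id]
    · rw [Matrix.transpose_submatrix]
      have := Matrix.submatrix_mul_equiv (V t)ᵀ (V t) σ (Equiv.refl (Fin n)) σ
      simp only [Equiv.coe_refl] at this
      rw [this, hV', Matrix.submatrix_one_equiv]
    · have h1 : Matrix.diagonal (fun j => r t (σ j)) = (Matrix.diagonal (r t)).submatrix σ σ :=
        (Matrix.submatrix_diagonal_equiv (r t) σ).symm
      rw [Matrix.transpose_submatrix, h1, Matrix.submatrix_mul_equiv, Matrix.submatrix_mul_equiv,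
        ← hB', Matrix.submatrix_id_id]

end Pool.Agent.Run7.h437.LK
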